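import Pool.Agent.MP_0f71ae_nt.Cnt.Defs

/-!
# Definitions: random subsets of `{1, …, N}`, typical `N`
-/

set_option autoImplicit false

namespace Pool.Agent.MP_0f71ae_nt.Rnd

open Finset Pool.Agent.MP_0f71ae_nt.Reg Pool.Agent.MP_0f71ae_nt.Cnt

open Classical in
/-- The probability that `E S` holds, where the random subset `S` of `{1, …, N}` contains each
element independently with probability `p`. -/
noncomputable def prb (N : ℕ) (p : ℝ) (E : Finset ℕ → Prop) : ℝ :=
  ∑ S ∈ (Finset.Icc 1 N).powerset.filter E, p ^ S.card * (1 - p) ^ (N - S.card)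

open Classical in
/-- The largest size of a subset of `S` which contains no progression `a, a + d, a + 2d` with
`d ≥ 1`. -/
noncomputable def r3s (S : Finset ℕ) : ℕ := (S.powerset.filter APFree).sup Finset.card

/-- `N` is typical: `r₃` is almost linear on `[N / D, D N]`; there are at most
`2 ^ ((1 + ε) r₃(N))` progression-free subsets of `{1, …, N}`; every subset of `{1, …, N}` with at
least `(1 + ε) r₃(N)` elements contains at least `D r₃(N)` progressions; at most `exp (r₃(N) / D)`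
sets with at most `(1 + ε) r₃(N)` elements cover all progression-free subsets; for `p` in
`[1 / D, 1]` the largest progression-free subset of a random subset of `{1, …, N}` of density `p`
has `p r₃(N)` elements up to `ε p r₃(N)`, with probability at least
`1 - 2 exp (-ε² p r₃(N) / 24)`. -/
def Typical (ε D : ℝ) (N : ℕ) : Prop :=
  LinAt ε D N ∧
  (apCount N : ℝ) ≤ (2 : ℝ) ^ ((1 + ε) * (r3 N : ℝ)) ∧
  (∀ A ⊆ Finset.Icc 1 N, (1 + ε) * r3 N ≤ A.card → D * r3 N ≤ (aps A).card) ∧
  (∃ F : Finset (Finset ℕ), (F.card : ℝ) ≤ Real.exp (r3 N / D) ∧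
    (∀ C ∈ F, C ⊆ Finset.Icc 1 N ∧ (C.card : ℝ) ≤ (1 + ε) * r3 N) ∧
    ∀ I ⊆ Finset.Icc 1 N, APFree I → ∃ C ∈ F, I ⊆ C) ∧
  ∀ p : ℝ, 1 / D ≤ p → p ≤ 1 → 1 - 2 * Real.exp (-(ε ^ 2 * (p * r3 N) / 24)) ≤
    prb N p (fun S => |(r3s S : ℝ) - p * r3 N| ≤ ε * (p * r3 N))

end Pool.Agent.MP_0f71ae_nt.Rnd
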