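import Pool.Agent.MP_0f71ae_nt.Rnd.Prob

/-!
# Random subsets of one `{1, …, N}`, from containers
-/

set_option autoImplicit false

namespace Pool.Agent.MP_0f71ae_nt.Rnd

open Finset Pool.Agent.MP_0f71ae_nt.Reg

theorem exists_r3s (S : Finset ℕ) : ∃ I ⊆ S, APFree I ∧ I.card = r3s S := by
  classical
  have hne : (S.powerset.filter APFree).Nonempty := by
    refine ⟨∅, ?_⟩
    rw [mem_filter, mem_powerset]
    refine ⟨empty_subset _, ?_⟩
    intro a d _ h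
    exact absurd h.1 (notMem_empty _)
  obtain ⟨I, hI, hIc⟩ := exists_mem_eq_sup _ hne Finset.card
  rw [mem_filter, mem_powerset] at hI
  refine ⟨I, hI.1, hI.2, ?_⟩
  rw [← hIc, r3s]

theorem card_le_r3s {S I : Finset ℕ} (hI : I ⊆ S) (h : APFree I) : I.card ≤ r3s S := by
  classical
  unfold r3s
  apply Finset.le_sup (f := Finset.card)
  rw [mem_filter, mem_powerset]
  exact ⟨hI, h⟩

theorem uni {N : ℕ} {ε p : ℝ} {F : Finset (Finset ℕ)} (hp0 : 0 ≤ p) (hp1 : p ≤ 1) (hε0 : 0 < ε)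
    (hε1 : ε ≤ 1) (hF : ∀ C ∈ F, C ⊆ Icc 1 N ∧ (C.card : ℝ) ≤ (1 + ε / 3) * r3 N)
    (hcov : ∀ I ⊆ Icc 1 N, APFree I → ∃ C ∈ F, I ⊆ C)
    (hcard : (F.card : ℝ) ≤ Real.exp (ε ^ 2 * (p * r3 N) / 24)) :
    1 - 2 * Real.exp (-(ε ^ 2 * (p * r3 N) / 24)) ≤
      prb N p (fun S => |(r3s S : ℝ) - p * r3 N| ≤ ε * (p * r3 N)) := by
  classical
  have hr : (0 : ℝ) ≤ r3 N := Nat.cast_nonneg _
  have hpr : 0 ≤ p * (r3 N : ℝ) := mul_nonneg hp0 hr
  obtain ⟨A, hA, hAf, hAc⟩ := exists_r3 N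
  have h0 := prb_add_not N p (fun S => |(r3s S : ℝ) - p * r3 N| ≤ ε * (p * r3 N))
  have h1 : prb N p (fun S => ¬ |(r3s S : ℝ) - p * r3 N| ≤ ε * (p * r3 N)) ≤
      prb N p (fun S => (∃ C ∈ F, (1 + ε) * (p * r3 N) < ((S ∩ C).card : ℝ)) ∨
        ((S ∩ A).card : ℝ) < (1 - ε) * (p * A.card)) := by
    apply prb_mono N hp0 hp1
    intro S hS hE
    rw [abs_le, not_and_or, not_le, not_le] at hE
    rcases hE with hE | hE
    · right
      rw [hAc]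
      have h2 : APFree (S ∩ A) := fun a d hd hh => hAf a d hd ⟨(mem_inter.1 hh.1).2,
        (mem_inter.1 hh.2.1).2, (mem_inter.1 hh.2.2).2⟩
      have h3 : ((S ∩ A).card : ℝ) ≤ r3s S := by exact_mod_cast card_le_r3s inter_subset_left h2
      linarith
    · left
      obtain ⟨I, hI, hIf, hIc⟩ := exists_r3s S
      obtain ⟨C, hC, hIC⟩ := hcov I (hI.trans hS) hIf
      refine ⟨C, hC, ?_⟩
      have h3 : (I.card : ℝ) ≤ (S ∩ C).card := by
        exact_mod_cast card_le_card (subset_inter hI hIC)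
      rw [hIc] at h3
      linarith
  have h2 := prb_or N hp0 hp1 (fun S => ∃ C ∈ F, (1 + ε) * (p * r3 N) < ((S ∩ C).card : ℝ))
    (fun S => ((S ∩ A).card : ℝ) < (1 - ε) * (p * A.card))
  have h3 := prb_exists N hp0 hp1 F (fun C S => (1 + ε) * (p * r3 N) < ((S ∩ C).card : ℝ))
  have h4 : ∑ C ∈ F, prb N p (fun S => (1 + ε) * (p * r3 N) < ((S ∩ C).card : ℝ)) ≤
      ∑ C ∈ F, Real.exp (-(ε ^ 2 * (p * r3 N) / 12)) :=
    sum_le_sum (fun C hC => prb_upper hp0 hp1 hε0 hε1 hr (hF C hC).1 (hF C hC).2)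
  rw [sum_const, nsmul_eq_mul] at h4
  have h5 : (F.card : ℝ) * Real.exp (-(ε ^ 2 * (p * r3 N) / 12)) ≤
      Real.exp (-(ε ^ 2 * (p * r3 N) / 24)) := by
    calc (F.card : ℝ) * Real.exp (-(ε ^ 2 * (p * r3 N) / 12))
        ≤ Real.exp (ε ^ 2 * (p * r3 N) / 24) * Real.exp (-(ε ^ 2 * (p * r3 N) / 12)) :=
          mul_le_mul_of_nonneg_right hcard (Real.exp_nonneg _)
      _ = Real.exp (-(ε ^ 2 * (p * r3 N) / 24)) := by
          rw [← Real.exp_add]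
          congr 1
          ring
  have h6 := prb_lower (N := N) (p := p) (ε := ε) (A := A) hp0 hp1 hε0 hε1 hA
  have h7 : Real.exp (-(ε ^ 2 * (p * A.card) / 2)) ≤ Real.exp (-(ε ^ 2 * (p * r3 N) / 24)) := by
    apply Real.exp_le_exp.2
    rw [hAc]
    have : 0 ≤ ε ^ 2 * (p * (r3 N : ℝ)) := mul_nonneg (sq_nonneg _) hpr
    linarith
  linarith

end Pool.Agent.MP_0f71ae_nt.Rnd
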