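import Pool.Agent.MP_0f71ae_nt.Cnt.Sharp
import Pool.Agent.MP_0f71ae_nt.Cnt.Fam
import Pool.Agent.MP_0f71ae_nt.Rnd.Uni

/-!
# Containers, supersaturation and random subsets at one `N` at which `r₃` is almost linear
-/

set_option autoImplicit false

namespace Pool.Agent.MP_0f71ae_nt.Rnd

open Finset Pool.Agent.MP_0f71ae_nt.Reg Pool.Agent.MP_0f71ae_nt.Cnt

/-- Part of `Typical`: random subsets of `{1, …, N}` of density `p ≥ 1 / D`, sets larger than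
`(1 + ε) r₃(N)`, containers. -/
def TypA (ε D : ℝ) (N : ℕ) : Prop :=
  (∀ p : ℝ, 1 / D ≤ p → p ≤ 1 → 1 - 2 * Real.exp (-(ε ^ 2 * (p * r3 N) / 24)) ≤
    prb N p (fun S => |(r3s S : ℝ) - p * r3 N| ≤ ε * (p * r3 N))) ∧
  (∀ A ⊆ Finset.Icc 1 N, (1 + ε) * r3 N ≤ A.card → D * r3 N ≤ (aps A).card) ∧
  ∃ F : Finset (Finset ℕ), (F.card : ℝ) ≤ Real.exp (r3 N / D) ∧
    (∀ C ∈ F, C ⊆ Finset.Icc 1 N ∧ (C.card : ℝ) ≤ (1 + ε) * r3 N) ∧
    ∀ I ⊆ Finset.Icc 1 N, APFree I → ∃ C ∈ F, I ⊆ C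

theorem one_sat {ε : ℝ} (hε : 0 < ε) (hε1 : ε ≤ 1) (k N T y : ℕ) (hkT : k + 1 ≤ T)
    (hTε : 100 / ε ≤ T) (hTy : T ≤ y) (hN1 : 2 ^ k ≤ N) (hN2 : N < 2 ^ (k + 1))
    (hlin : LinAt (ε / 60) ((y : ℝ) ^ 18) N) (hNΛ : (y : ℝ) ^ 18 * (2 / (ε / 60)) ≤ N) :
    ∀ A ⊆ Icc 1 N, (1 + ε / 6) * r3 N ≤ A.card →
      24 * ((y : ℝ) ^ 6) ^ 2 * r3 N ≤ (aps A).card := by
  intro A hA hAc
  have hT100 : (100 : ℝ) ≤ T := by
    have : 100 ≤ 100 / ε := by rw [le_div_iff₀ hε]; linarith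
    linarith
  have hTy' : (T : ℝ) ≤ y := by exact_mod_cast hTy
  have hy100 : (100 : ℝ) ≤ y := hT100.trans hTy'
  have hy0 : (0 : ℝ) < y := by linarith
  have hy1 : (1 : ℝ) ≤ y := by linarith
  set Λ : ℝ := (y : ℝ) ^ 18 with hΛ
  have hΛ1 : 1 ≤ Λ := one_le_pow₀ hy1
  have hN0 : 1 ≤ N := le_trans Nat.one_le_two_pow hN1
  have hN0' : (1 : ℝ) ≤ N := by exact_mod_cast hN0
  have hlogΛ : Real.log Λ = 18 * Real.log y := by rw [hΛ, Real.log_pow]; norm_num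
  have hly0 : 0 ≤ Real.log y := Real.log_nonneg hy1
  have hlyy : Real.log y ≤ y - 1 := Real.log_le_sub_one_of_pos hy0
  have hlogN : Real.log N ≤ T := by
    have h1 : (N : ℝ) ≤ 2 ^ (k + 1) := by exact_mod_cast hN2.le
    have h2 : Real.log N ≤ Real.log ((2 : ℝ) ^ (k + 1)) := Real.log_le_log (by linarith) h1
    rw [Real.log_pow] at h2
    have h3 : ((k + 1 : ℕ) : ℝ) ≤ T := by exact_mod_cast hkT
    have := Real.log_two_lt_d9
    have h0 : (0 : ℝ) ≤ ((k + 1 : ℕ) : ℝ) := by positivity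
    nlinarith
  have hlogN0 : 0 ≤ Real.log N := Real.log_nonneg hN0'
  have hr0 : (0 : ℝ) ≤ r3 N := by positivity
  have h0 : (0 : ℝ) ≤ (aps A).card := by positivity
  have h1 := sat_one (ε := ε / 6) (η := ε / 60) (Λ := Λ) (by positivity) (by positivity)
    (by linarith) (by linarith) hΛ1 N hN0 hNΛ
    (hlin (1 / Λ) le_rfl (by rw [div_le_iff₀ (by linarith)]; nlinarith)) A hA hAc
  have h2 : (1 + Real.log Λ) * (1 + Real.log N) ≤ 36 * (y : ℝ) ^ 2 := by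
    have e1 : 1 + Real.log Λ ≤ 18 * y := by rw [hlogΛ]; linarith
    have e2 : 1 + Real.log N ≤ 2 * y := by linarith
    calc (1 + Real.log Λ) * (1 + Real.log N) ≤ (18 * y) * (2 * y) :=
          mul_le_mul e1 e2 (by linarith) (by positivity)
      _ = 36 * (y : ℝ) ^ 2 := by ring
  have h3 : ε / 60 * (ε / 6) / 32 * Λ * r3 N ≤ 36 * (y : ℝ) ^ 2 * (aps A).card :=
    h1.trans (mul_le_mul_of_nonneg_right h2 h0)
  have hεy : 100 ≤ ε * y := by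
    rw [div_le_iff₀ hε] at hTε
    have : (T : ℝ) * ε ≤ y * ε := mul_le_mul_of_nonneg_right hTy' hε.le
    linarith
  have hεy2 : (10000 : ℝ) ≤ ε ^ 2 * (y : ℝ) ^ 2 := by
    have : (100 : ℝ) * 100 ≤ (ε * y) * (ε * y) := mul_le_mul hεy hεy (by norm_num) (by positivity)
    nlinarith
  have hy2 : (10000 : ℝ) ≤ (y : ℝ) ^ 2 := by nlinarith
  -- `24 y^12 r * 36 y^2 * 11520 ≤ ε^2 y^18 r`
  have h4 : 11520 * (36 * (y : ℝ) ^ 2 * (24 * ((y : ℝ) ^ 6) ^ 2 * r3 N)) ≤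
      11520 * (ε / 60 * (ε / 6) / 32 * Λ * r3 N) := by
    have e1 : 11520 * (ε / 60 * (ε / 6) / 32 * Λ * r3 N) =
        (ε ^ 2 * (y : ℝ) ^ 2) * ((y : ℝ) ^ 2 * ((y : ℝ) ^ 14 * r3 N)) := by rw [hΛ]; ring
    have e2 : 11520 * (36 * (y : ℝ) ^ 2 * (24 * ((y : ℝ) ^ 6) ^ 2 * r3 N)) =
        9953280 * ((y : ℝ) ^ 14 * r3 N) := by ring
    rw [e1, e2]
    have hz : 0 ≤ (y : ℝ) ^ 14 * r3 N := by positivity
    calc 9953280 * ((y : ℝ) ^ 14 * r3 N) ≤ 10000 * (10000 * ((y : ℝ) ^ 14 * r3 N)) := by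
          nlinarith
      _ ≤ (ε ^ 2 * (y : ℝ) ^ 2) * ((y : ℝ) ^ 2 * ((y : ℝ) ^ 14 * r3 N)) := by
          apply mul_le_mul hεy2 _ (by positivity) (by positivity)
          exact mul_le_mul_of_nonneg_right hy2 hz
  have h5 : 36 * (y : ℝ) ^ 2 * (24 * ((y : ℝ) ^ 6) ^ 2 * r3 N) ≤ 36 * (y : ℝ) ^ 2 * (aps A).card := by
    linarith
  exact le_of_mul_le_mul_left h5 (by positivity)

theorem one_N {ε D : ℝ} (hε : 0 < ε) (hε1 : ε ≤ 1) (hD : 1 ≤ D) (k N T y : ℕ) (hkT : k + 1 ≤ T)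
    (hTε : 100 / ε ≤ T) (hDy : D * T ≤ y) (hN1 : 2 ^ k ≤ N) (hN2 : N < 2 ^ (k + 1))
    (hlin : LinAt (ε / 60) ((y : ℝ) ^ 18) N) (hNΛ : (y : ℝ) ^ 18 * (2 / (ε / 60)) ≤ N)
    (hkε : 12 / ε ≤ k) : TypA ε D N := by
  have hT100 : (100 : ℝ) ≤ T := by
    have : 100 ≤ 100 / ε := by rw [le_div_iff₀ hε]; linarith
    linarith
  have hTy' : (T : ℝ) ≤ y := le_trans (by nlinarith) hDy
  have hTy : T ≤ y := by exact_mod_cast hTy'
  have hD0 : 0 < D := by linarith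
  have hy100 : (100 : ℝ) ≤ y := hT100.trans hTy'
  have hy0 : (0 : ℝ) < y := by linarith
  have hy1 : (1 : ℝ) ≤ y := by linarith
  have hyn1 : 1 ≤ y := by exact_mod_cast hy1
  have hyn100 : 100 ≤ y := by exact_mod_cast hy100
  have hsup := one_sat hε hε1 k N T y hkT hTε hTy hN1 hN2 hlin hNΛ
  have hεy : 100 ≤ ε * y := by
    have h1 := hTε
    rw [div_le_iff₀ hε] at h1
    have : (T : ℝ) * ε ≤ y * ε := mul_le_mul_of_nonneg_right hTy' hε.le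
    linarith
  have hr : (12 / ε : ℝ) ≤ r3 N := by
    have h1 : k + 1 ≤ r3 N := (r3_ge_log k).trans (r3_mono hN1)
    have h2 : ((k + 1 : ℕ) : ℝ) ≤ r3 N := by exact_mod_cast h1
    push_cast at h2
    linarith
  have hεr : 12 ≤ ε * r3 N := by
    rw [div_le_iff₀ hε] at hr
    linarith
  have hr12 : (12 : ℝ) ≤ r3 N := by nlinarith
  have hr0 : (0 : ℝ) ≤ r3 N := by linarith
  set B : ℕ := y ^ 6 with hB
  have hBr : (B : ℝ) = (y : ℝ) ^ 6 := by rw [hB]; push_cast; ring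
  have hB2 : 2 ≤ B := by
    rw [hB]
    calc 2 ≤ y ^ 1 := by rw [pow_one]; omega
      _ ≤ y ^ 6 := Nat.pow_le_pow_right (by omega) (by norm_num)
  have hB0 : (0 : ℝ) < B := by rw [hBr]; positivity
  set s0 : ℕ := ⌈(1 + ε / 6) * r3 N⌉₊ with hs0
  have hs0le : (s0 : ℝ) ≤ (1 + ε / 6) * r3 N + 1 := (Nat.ceil_lt_add_one (by positivity)).le
  have hs0ge : (1 + ε / 6) * r3 N ≤ s0 := Nat.le_ceil _
  have hs03 : (s0 : ℝ) ≤ 3 * r3 N := by nlinarith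
  have hs01 : 1 ≤ s0 := by
    have : (1 : ℝ) ≤ s0 := by nlinarith
    exact_mod_cast this
  have hsat : ∀ A ⊆ Icc 1 N, A.card = s0 → 4 * B * (B + 1) * s0 ≤ (aps A).card := by
    intro A hA hc
    have h1 := hsup A hA (by rw [hc]; exact hs0ge)
    have h2 : (((4 * B * (B + 1) * s0 : ℕ) : ℝ)) ≤ (aps A).card := by
      push_cast
      have e1 : (B : ℝ) + 1 ≤ 2 * B := by
        have : (1 : ℝ) ≤ B := by exact_mod_cast (by omega : 1 ≤ B)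
        linarith
      calc 4 * (B : ℝ) * (B + 1) * s0 ≤ 4 * (B : ℝ) * (2 * B) * (3 * r3 N) :=
            mul_le_mul (mul_le_mul_of_nonneg_left e1 (by positivity)) hs03
              (by positivity) (by positivity)
        _ = 24 * ((y : ℝ) ^ 6) ^ 2 * r3 N := by rw [hBr]; ring
        _ ≤ (aps A).card := h1
    exact_mod_cast h2
  obtain ⟨F, hF1, hF2, hF3⟩ := containers N s0 B _ hB2 hs01 le_rfl hsat
  have hlog2 : Nat.log 2 N = k := Nat.log_eq_of_pow_le_of_lt_pow hN1 hN2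
  rw [hlog2] at hF1 hF2
  set t : ℕ := 4 * s0 / B with ht
  have htB : (t : ℝ) * B ≤ 12 * r3 N := by
    have : t * B ≤ 4 * s0 := Nat.div_mul_le_self _ _
    have h5 : (t : ℝ) * B ≤ 4 * s0 := by exact_mod_cast this
    linarith
  have hk1 : ((k + 1 : ℕ) : ℝ) ≤ T := by exact_mod_cast hkT
  have hk10 : (0 : ℝ) ≤ ((k + 1 : ℕ) : ℝ) := by positivity
  have ht0 : (0 : ℝ) ≤ t := by positivity
  have hy4 : (10 ^ 8 : ℝ) ≤ (y : ℝ) ^ 4 := by
    calc (10 ^ 8 : ℝ) = 100 ^ 4 := by norm_num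
      _ ≤ (y : ℝ) ^ 4 := pow_le_pow_left₀ (by norm_num) hy100 4
  have hy2 : (10 ^ 4 : ℝ) ≤ (y : ℝ) ^ 2 := by
    calc (10 ^ 4 : ℝ) = 100 ^ 2 := by norm_num
      _ ≤ (y : ℝ) ^ 2 := pow_le_pow_left₀ (by norm_num) hy100 2
  have hε2y2 : (10 ^ 4 : ℝ) ≤ ε ^ 2 * (y : ℝ) ^ 2 := by
    have : (100 : ℝ) * 100 ≤ (ε * y) * (ε * y) := mul_le_mul hεy hεy (by norm_num) (by positivity)
    nlinarith
  -- the exponent of the number of containers
  have hexp : (T : ℝ) ^ 2 * D * t ≤ ε ^ 2 * r3 N / 24 := by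
    have h1 : (T : ℝ) ^ 2 * D ≤ (y : ℝ) ^ 2 := by
      calc (T : ℝ) ^ 2 * D = T * (D * T) := by ring
        _ ≤ y * y := mul_le_mul hTy' hDy (by positivity) hy0.le
        _ = (y : ℝ) ^ 2 := by ring
    have h2 : (T : ℝ) ^ 2 * D * t ≤ (y : ℝ) ^ 2 * t := mul_le_mul_of_nonneg_right h1 ht0
    refine h2.trans ?_
    have h3 : (y : ℝ) ^ 2 * ((y : ℝ) ^ 2 * t * ((y : ℝ) ^ 2)) ≤ 12 * r3 N := by
      have e : (y : ℝ) ^ 2 * ((y : ℝ) ^ 2 * t * ((y : ℝ) ^ 2)) = t * B := by rw [hBr]; ring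
      rw [e]; exact htB
    -- (y^2 t) * (ε² y²) y² ≤ 12 ε² r
    have h4 : ((y : ℝ) ^ 2 * t) * (10 ^ 4 * 10 ^ 4) ≤ ε ^ 2 * (12 * r3 N) := by
      calc ((y : ℝ) ^ 2 * t) * (10 ^ 4 * 10 ^ 4)
          ≤ ((y : ℝ) ^ 2 * t) * ((ε ^ 2 * (y : ℝ) ^ 2) * (y : ℝ) ^ 2) := by
            apply mul_le_mul_of_nonneg_left _ (by positivity)
            exact mul_le_mul hε2y2 hy2 (by norm_num) (by positivity)
        _ = ε ^ 2 * ((y : ℝ) ^ 2 * ((y : ℝ) ^ 2 * t * ((y : ℝ) ^ 2))) := by ring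
        _ ≤ ε ^ 2 * (12 * r3 N) := mul_le_mul_of_nonneg_left h3 (by positivity)
    have h5 : 0 ≤ ε ^ 2 * (r3 N : ℝ) := by positivity
    nlinarith
  have hnum : ∀ p : ℝ, 1 / D ≤ p →
      (F.card : ℝ) ≤ Real.exp (ε ^ 2 * (p * r3 N) / 24) := by
    intro p hp
    have h1 : (F.card : ℝ) ≤ (((N + 1) ^ ((k + 1) * t) : ℕ) : ℝ) := by exact_mod_cast hF1
    have h2 : ((((N + 1) ^ ((k + 1) * t) : ℕ)) : ℝ) ≤ Real.exp ((T : ℝ) ^ 2 * t) := by
      have h3 : ((N + 1 : ℕ) : ℝ) ≤ Real.exp T := by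
        have h4 : ((N + 1 : ℕ) : ℝ) ≤ (2 : ℝ) ^ (k + 1) := by exact_mod_cast hN2
        have h5 : (2 : ℝ) ^ (k + 1) ≤ Real.exp ((k + 1 : ℕ) : ℝ) := by
          have e : Real.exp ((k + 1 : ℕ) : ℝ) = (Real.exp 1) ^ (k + 1) := by
            rw [← Real.exp_nat_mul, mul_one]
          rw [e]
          exact pow_le_pow_left₀ (by norm_num) (by have := Real.add_one_le_exp (1 : ℝ); linarith) _
        exact h4.trans (h5.trans (Real.exp_le_exp.2 hk1))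
      push_cast at h3 ⊢
      calc ((N : ℝ) + 1) ^ ((k + 1) * t) ≤ (Real.exp T) ^ ((k + 1) * t) :=
            pow_le_pow_left₀ (by positivity) h3 _
        _ = Real.exp ((((k + 1) * t : ℕ) : ℝ) * T) := by rw [← Real.exp_nat_mul]
        _ ≤ Real.exp ((T : ℝ) ^ 2 * t) := by
            apply Real.exp_le_exp.2
            push_cast
            push_cast at hk1
            calc ((k : ℝ) + 1) * t * T ≤ T * t * T := by gcongr
              _ = (T : ℝ) ^ 2 * t := by ring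
    refine (h1.trans h2).trans (Real.exp_le_exp.2 ?_)
    have h3 : (T : ℝ) ^ 2 * t = ((T : ℝ) ^ 2 * D * t) * (1 / D) := by field_simp
    rw [h3]
    have h4 : ε ^ 2 * (p * r3 N) / 24 = (ε ^ 2 * r3 N / 24) * p := by ring
    rw [h4]
    exact mul_le_mul hexp hp (by positivity) (by positivity)
  have hcard : ∀ C ∈ F, (C.card : ℝ) ≤ (1 + ε / 3) * r3 N := by
    intro C hC
    have h1 : (C.card : ℝ) ≤ ((s0 + (k + 1) * t : ℕ) : ℝ) := by exact_mod_cast (hF2 C hC).2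
    push_cast at h1
    have h2 : ((k : ℝ) + 1) * t ≤ ε * r3 N / 24 := by
      have h3 : ((k : ℝ) + 1) * t ≤ (T : ℝ) ^ 2 * D * t := by
        apply mul_le_mul_of_nonneg_right _ ht0
        push_cast at hk1
        have h4 : (T : ℝ) ≤ (T : ℝ) ^ 2 * D := by nlinarith
        linarith
      have h5 : ε ^ 2 * (r3 N : ℝ) / 24 ≤ ε * r3 N / 24 := by
        have : ε ^ 2 ≤ ε := by nlinarith
        have := mul_le_mul_of_nonneg_right this hr0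
        linarith
      linarith
    have h6 : (1 + ε / 3) * (r3 N : ℝ) = (1 + ε / 6) * r3 N + ε * r3 N / 6 := by ring
    rw [h6]
    linarith
  refine ⟨?_, ?_, ?_⟩
  · intro p hp hp1
    have hp0 : 0 ≤ p := le_trans (by positivity) hp
    exact uni hp0 hp1 hε hε1 (fun C hC => ⟨(hF2 C hC).1, hcard C hC⟩) hF3 (hnum p hp)
  · intro A hA hAc
    have h1 := hsup A hA (by
      refine le_trans ?_ hAc
      apply mul_le_mul_of_nonneg_right (by linarith) hr0)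
    refine le_trans ?_ h1
    apply mul_le_mul_of_nonneg_right _ hr0
    have h2 : D ≤ y := le_trans (by nlinarith) hDy
    have h3 : (y : ℝ) ≤ 24 * ((y : ℝ) ^ 6) ^ 2 := by
      have h4 : (y : ℝ) ≤ ((y : ℝ) ^ 6) ^ 2 := by
        rw [← pow_mul]
        exact le_self_pow₀ hy1 (by norm_num)
      have h5 : 0 ≤ ((y : ℝ) ^ 6) ^ 2 := by positivity
      linarith
    exact h2.trans h3
  · refine ⟨F, ?_, ?_, hF3⟩
    · refine (hnum (1 / D) le_rfl).trans (Real.exp_le_exp.2 ?_)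
      have h1 : ε ^ 2 ≤ 1 := by nlinarith
      have h2 : 0 ≤ 1 / D * (r3 N : ℝ) := by positivity
      have h3 : ε ^ 2 * (1 / D * (r3 N : ℝ)) ≤ 1 * (1 / D * (r3 N : ℝ)) :=
        mul_le_mul_of_nonneg_right h1 h2
      have h4 : (r3 N : ℝ) / D = 1 / D * r3 N := by ring
      rw [h4]
      linarith
    · intro C hC
      refine ⟨(hF2 C hC).1, (hcard C hC).trans ?_⟩
      apply mul_le_mul_of_nonneg_right (by linarith) hr0

end Pool.Agent.MP_0f71ae_nt.Rnd
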