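import Pool.Agent.MP_0f71ae_nt.Rnd.Defs

/-!
# Random subsets of `{1, …, N}`: the Chernoff bounds
-/

set_option autoImplicit false

namespace Pool.Agent.MP_0f71ae_nt.Rnd

open Finset Pool.Agent.MP_0f71ae_nt.Reg

/-- The weight of `S`. -/
noncomputable def pw (N : ℕ) (p : ℝ) (S : Finset ℕ) : ℝ := p ^ S.card * (1 - p) ^ (N - S.card)

theorem pw_nonneg (N : ℕ) {p : ℝ} (hp0 : 0 ≤ p) (hp1 : p ≤ 1) (S : Finset ℕ) : 0 ≤ pw N p S := by
  unfold pw
  have : 0 ≤ 1 - p := by linarith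
  positivity

open Classical in
theorem prb_eq (N : ℕ) (p : ℝ) (E : Finset ℕ → Prop) :
    prb N p E = ∑ S ∈ (Icc 1 N).powerset, if E S then pw N p S else 0 := by
  unfold prb pw
  rw [sum_filter]

theorem prb_true (N : ℕ) (p : ℝ) : prb N p (fun _ => True) = 1 := by
  classical
  have h := sum_pow_mul_eq_add_pow p (1 - p) (Icc 1 N)
  rw [Nat.card_Icc, Nat.add_sub_cancel] at h
  unfold prb
  rw [filter_true, h]
  ring_nf

theorem prb_add_not (N : ℕ) (p : ℝ) (E : Finset ℕ → Prop) :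
    prb N p E + prb N p (fun S => ¬ E S) = 1 := by
  classical
  rw [← prb_true N p, prb_eq, prb_eq, prb_eq, ← sum_add_distrib]
  refine sum_congr rfl fun S _ => ?_
  by_cases h : E S <;> simp [h]

theorem prb_mono (N : ℕ) {p : ℝ} (hp0 : 0 ≤ p) (hp1 : p ≤ 1) {E E' : Finset ℕ → Prop}
    (h : ∀ S ⊆ Icc 1 N, E S → E' S) : prb N p E ≤ prb N p E' := by
  classical
  rw [prb_eq, prb_eq]
  refine sum_le_sum fun S hS => ?_
  have hw := pw_nonneg N hp0 hp1 S
  by_cases h1 : E S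
  · rw [if_pos h1, if_pos (h S (mem_powerset.1 hS) h1)]
  · rw [if_neg h1]
    split_ifs
    · exact hw
    · exact le_rfl

theorem prb_or (N : ℕ) {p : ℝ} (hp0 : 0 ≤ p) (hp1 : p ≤ 1) (E E' : Finset ℕ → Prop) :
    prb N p (fun S => E S ∨ E' S) ≤ prb N p E + prb N p E' := by
  classical
  rw [prb_eq, prb_eq, prb_eq, ← sum_add_distrib]
  refine sum_le_sum fun S _ => ?_
  have hw := pw_nonneg N hp0 hp1 S
  by_cases h1 : E S <;> by_cases h2 : E' S <;> simp [h1, h2, hw]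

theorem prb_exists (N : ℕ) {p : ℝ} (hp0 : 0 ≤ p) (hp1 : p ≤ 1) (F : Finset (Finset ℕ))
    (E : Finset ℕ → Finset ℕ → Prop) :
    prb N p (fun S => ∃ C ∈ F, E C S) ≤ ∑ C ∈ F, prb N p (E C) := by
  classical
  rw [prb_eq]
  simp only [prb_eq]
  rw [sum_comm]
  refine sum_le_sum fun S _ => ?_
  have hw := pw_nonneg N hp0 hp1 S
  have h0 : ∀ C ∈ F, 0 ≤ if E C S then pw N p S else 0 := fun C _ => by
    split_ifs
    · exact hw
    · exact le_rfl
  by_cases h : ∃ C ∈ F, E C S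
  · rw [if_pos h]
    obtain ⟨C, hC, hE⟩ := h
    have h1 := single_le_sum h0 hC
    rwa [if_pos hE] at h1
  · rw [if_neg h]
    exact sum_nonneg h0

/-- The generating function. -/
theorem sum_pow_inter (N : ℕ) (p x : ℝ) (C : Finset ℕ) (hC : C ⊆ Icc 1 N) :
    ∑ S ∈ (Icc 1 N).powerset, p ^ S.card * (1 - p) ^ (N - S.card) * x ^ (S ∩ C).card =
      (1 - p + p * x) ^ C.card := by
  classical
  have h1 := prod_add (fun i => p * if i ∈ C then x else 1) (fun _ => 1 - p) (Icc 1 N)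
  have h2 : ∏ i ∈ Icc 1 N, ((p * if i ∈ C then x else 1) + (1 - p)) =
      (1 - p + p * x) ^ C.card := by
    have h3 : ∏ i ∈ Icc 1 N, ((p * if i ∈ C then x else 1) + (1 - p)) =
        ∏ i ∈ Icc 1 N, if i ∈ C then (1 - p + p * x) else 1 := by
      refine prod_congr rfl fun i _ => ?_
      split_ifs
      · ring
      · ring
    rw [h3, prod_ite_mem, inter_eq_right.2 hC, prod_const]
  rw [h2] at h1
  rw [h1]
  refine sum_congr rfl fun S hS => ?_
  have hS' := mem_powerset.1 hS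
  rw [prod_mul_distrib, prod_const, prod_ite_mem, prod_const, prod_const, card_sdiff_of_subset hS',
    Nat.card_Icc, Nat.add_sub_cancel]
  ring

/-- The exponential moment bound. -/
theorem prb_exp {N : ℕ} {p lam t : ℝ} {C : Finset ℕ} (hp0 : 0 ≤ p) (hp1 : p ≤ 1)
    (hC : C ⊆ Icc 1 N) {E : Finset ℕ → Prop}
    (hE : ∀ S, E S → 0 ≤ lam * ((S ∩ C).card : ℝ) - t) :
    prb N p E ≤ Real.exp (p * (Real.exp lam - 1) * C.card - t) := by
  classical
  rw [prb_eq]
  have h1 : ∀ S ∈ (Icc 1 N).powerset, (if E S then pw N p S else 0) ≤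
      Real.exp (-t) * (p ^ S.card * (1 - p) ^ (N - S.card) * Real.exp lam ^ (S ∩ C).card) := by
    intro S _
    have hw := pw_nonneg N hp0 hp1 S
    have h2 : Real.exp (-t) * (p ^ S.card * (1 - p) ^ (N - S.card) *
        Real.exp lam ^ (S ∩ C).card) = pw N p S * Real.exp (lam * ((S ∩ C).card : ℝ) - t) := by
      unfold pw
      rw [← Real.exp_nat_mul, show lam * ((S ∩ C).card : ℝ) - t =
        -t + ((S ∩ C).card : ℝ) * lam by ring, Real.exp_add]
      ring
    rw [h2]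
    split_ifs with h3
    · exact le_mul_of_one_le_right hw (Real.one_le_exp (hE S h3))
    · exact mul_nonneg hw (Real.exp_pos _).le
  refine (sum_le_sum h1).trans ?_
  rw [← mul_sum, sum_pow_inter N p _ C hC]
  have h2 : (1 - p + p * Real.exp lam) ^ C.card ≤ Real.exp (p * (Real.exp lam - 1) * C.card) := by
    have h3 : 1 - p + p * Real.exp lam ≤ Real.exp (p * (Real.exp lam - 1)) := by
      have := Real.add_one_le_exp (p * (Real.exp lam - 1))
      linarith
    have h4 : 0 ≤ 1 - p + p * Real.exp lam :=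
      add_nonneg (by linarith) (mul_nonneg hp0 (Real.exp_pos _).le)
    calc (1 - p + p * Real.exp lam) ^ C.card ≤ Real.exp (p * (Real.exp lam - 1)) ^ C.card :=
          pow_le_pow_left₀ h4 h3 _
      _ = _ := by
          rw [← Real.exp_nat_mul]
          congr 1
          ring
  calc Real.exp (-t) * (1 - p + p * Real.exp lam) ^ C.card
      ≤ Real.exp (-t) * Real.exp (p * (Real.exp lam - 1) * C.card) :=
        mul_le_mul_of_nonneg_left h2 (Real.exp_pos _).le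
    _ = _ := by
        rw [← Real.exp_add]
        congr 1
        ring

theorem prb_upper {N : ℕ} {p ε r : ℝ} {C : Finset ℕ} (hp0 : 0 ≤ p) (hp1 : p ≤ 1) (hε0 : 0 < ε)
    (hε1 : ε ≤ 1) (hr : 0 ≤ r) (hC : C ⊆ Icc 1 N) (hCr : (C.card : ℝ) ≤ (1 + ε / 3) * r) :
    prb N p (fun S => (1 + ε) * (p * r) < ((S ∩ C).card : ℝ)) ≤
      Real.exp (-(ε ^ 2 * (p * r) / 12)) := by
  have h1 := prb_exp (lam := ε / 4) (t := ε / 4 * ((1 + ε) * (p * r))) hp0 hp1 hC
    (E := fun S => (1 + ε) * (p * r) < ((S ∩ C).card : ℝ)) (fun S hS => by nlinarith)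
  refine h1.trans (Real.exp_le_exp.2 ?_)
  have h2 : Real.exp (ε / 4) - 1 ≤ ε / 4 + (ε / 4) ^ 2 := by
    have h3 := (abs_le.1 (Real.abs_exp_sub_one_sub_id_le (x := ε / 4) (by
      rw [abs_of_pos (by positivity)]
      linarith))).2
    linarith
  have h3 : 0 ≤ Real.exp (ε / 4) - 1 := by
    have := Real.one_le_exp (show 0 ≤ ε / 4 by positivity)
    linarith
  have h4 : p * (Real.exp (ε / 4) - 1) * C.card ≤
      p * (ε / 4 + (ε / 4) ^ 2) * ((1 + ε / 3) * r) :=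
    mul_le_mul (mul_le_mul_of_nonneg_left h2 hp0) hCr (Nat.cast_nonneg _) (by positivity)
  have h5 : p * (ε / 4 + (ε / 4) ^ 2) * ((1 + ε / 3) * r) - ε / 4 * ((1 + ε) * (p * r)) =
      -(ε ^ 2 * (p * r) / 12) - (1 - ε) * (ε ^ 2 * (p * r) / 48) := by ring
  have h6 : 0 ≤ (1 - ε) * (ε ^ 2 * (p * r) / 48) :=
    mul_nonneg (by linarith) (by positivity)
  linarith

theorem prb_lower {N : ℕ} {p ε : ℝ} {A : Finset ℕ} (hp0 : 0 ≤ p) (hp1 : p ≤ 1) (hε0 : 0 < ε)
    (hε1 : ε ≤ 1) (hA : A ⊆ Icc 1 N) :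
    prb N p (fun S => ((S ∩ A).card : ℝ) < (1 - ε) * (p * A.card)) ≤
      Real.exp (-(ε ^ 2 * (p * A.card) / 2)) := by
  have h1 := prb_exp (lam := -ε) (t := -ε * ((1 - ε) * (p * A.card))) hp0 hp1 hA
    (E := fun S => ((S ∩ A).card : ℝ) < (1 - ε) * (p * A.card)) (fun S hS => by nlinarith)
  refine h1.trans (Real.exp_le_exp.2 ?_)
  have h2 : Real.exp (-ε) - 1 ≤ -ε + ε ^ 2 / 2 := by
    have h3 := Real.quadratic_le_exp_of_nonneg hε0.le
    have h4 : Real.exp (-ε) * Real.exp ε = 1 := by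
      rw [← Real.exp_add]
      simp
    have h5 : 1 ≤ (1 - ε + ε ^ 2 / 2) * Real.exp ε := by
      have h6 : 0 ≤ 1 - ε + ε ^ 2 / 2 := by nlinarith [sq_nonneg (1 - ε)]
      have h7 := mul_le_mul_of_nonneg_left h3 h6
      nlinarith [sq_nonneg (ε ^ 2)]
    have h6 : Real.exp (-ε) ≤ 1 - ε + ε ^ 2 / 2 := by
      have h7 := Real.exp_pos ε
      by_contra h8
      push Not at h8
      have h9 := mul_lt_mul_of_pos_right h8 h7
      linarith
    linarith
  have h3 : p * (Real.exp (-ε) - 1) * A.card ≤ p * (-ε + ε ^ 2 / 2) * A.card :=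
    mul_le_mul_of_nonneg_right (mul_le_mul_of_nonneg_left h2 hp0) (Nat.cast_nonneg _)
  have h4 : p * (-ε + ε ^ 2 / 2) * A.card - -ε * ((1 - ε) * (p * A.card)) =
      -(ε ^ 2 * (p * A.card) / 2) := by ring
  linarith

end Pool.Agent.MP_0f71ae_nt.Rnd
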