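import Pool.Agent.MP_0f71ae_nt.Rnd.Win

/-!
# Almost all scales are typical; densities down to `exp (-δ √(log N))`
-/

set_option autoImplicit false

namespace Pool.Agent.MP_0f71ae_nt.Rnd

open Finset Pool.Agent.MP_0f71ae_nt.Reg Pool.Agent.MP_0f71ae_nt.Cnt

theorem typical_of {ε D : ℝ} {N : ℕ} (h1 : Regular ε D N) (h2 : TypA ε D N) :
    Typical ε D N :=
  ⟨h1.1, h1.2.2, h1.2.1, h2.2.2, h2.1⟩

theorem Typical.mono {ε D D' : ℝ} {N : ℕ} (hD' : 1 ≤ D') (hDD : D' ≤ D) (h : Typical ε D N) :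
    Typical ε D' N := by
  obtain ⟨h1, h2, h3, ⟨F, h6, h7, h8⟩, h4⟩ := h
  have hr : (0 : ℝ) ≤ r3 N := Nat.cast_nonneg _
  have hD0 : 0 < D' := by linarith
  have hinv : 1 / D ≤ 1 / D' := one_div_le_one_div_of_le hD0 hDD
  refine ⟨?_, h2, ?_, ⟨F, ?_, h7, h8⟩, ?_⟩
  · intro x hx1 hx2
    exact h1 x (hinv.trans hx1) (hx2.trans hDD)
  · intro A hA hAc
    exact (mul_le_mul_of_nonneg_right hDD hr).trans (h3 A hA hAc)
  · refine h6.trans (Real.exp_le_exp.2 ?_)
    exact div_le_div_of_nonneg_left hr hD0 hDD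
  · intro p hp hp1
    exact h4 p (hinv.trans hp) hp1

/-- In every window of consecutive scales almost all scales are typical. -/
theorem typical_win (ε : ℝ) (hε : 0 < ε) (hε1 : ε ≤ 1) (D : ℝ) (hD : 1 ≤ D) (a K : ℕ) :
    ((badScales (Typical ε D) a K).card : ℝ) ≤
      3 * 10 ^ 7 * Real.log (D * (a + K + 2) / ε) / ε * √K := by
  classical
  have h1 := regular_win ε hε hε1 D hD a K
  have h2 := typA_win ε hε hε1 D hD a K
  have hsub : badScales (Typical ε D) a K ⊆
      badScales (Regular ε D) a K ∪ badScales (TypA ε D) a K := by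
    intro k hk
    unfold badScales at hk ⊢
    rw [mem_filter] at hk
    rw [mem_union, mem_filter, mem_filter]
    by_contra hcon
    rw [not_or, not_and, not_and, not_not, not_not] at hcon
    exact hk.2 (fun N hN1 hN2 => typical_of (hcon.1 hk.1 N hN1 hN2) (hcon.2 hk.1 N hN1 hN2))
  have h3 : ((badScales (Typical ε D) a K).card : ℝ) ≤
      (badScales (Regular ε D) a K).card + (badScales (TypA ε D) a K).card := by
    exact_mod_cast (card_le_card hsub).trans (card_union_le _ _)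
  have h4 : 3 * 10 ^ 7 * Real.log (D * (a + K + 2) / ε) / ε * √K =
      10 ^ 7 * Real.log (D * (a + K + 2) / ε) / ε * √K +
      2 * 10 ^ 7 * Real.log (D * (a + K + 2) / ε) / ε * √K := by ring
  rw [h4]
  linarith

/-- An elementary inequality. -/
theorem log_sqrt_le {A B η : ℝ} (hA : 0 ≤ A) (hB : 0 ≤ B) (hη : 0 < η) :
    ∃ C : ℝ, ∀ K : ℕ, (A * Real.log (K + 2) + B) * √K ≤ η * K + C := by
  refine ⟨4 * A * (8 * A / η) ^ 3 + B ^ 2 / (2 * η) + 2 * η, ?_⟩
  intro K
  have hK : (0 : ℝ) ≤ K := Nat.cast_nonneg _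
  set u : ℝ := ((K : ℝ) + 2) ^ (1 / 4 : ℝ) with hu
  have hu0 : 0 < u := Real.rpow_pos_of_pos (by linarith) _
  have hu4 : u ^ 4 = K + 2 := by
    rw [hu, ← Real.rpow_natCast, ← Real.rpow_mul (by linarith)]
    norm_num
  have hlog : Real.log (K + 2) ≤ 4 * u := by
    rw [← hu4, Real.log_pow]
    have := Real.log_le_sub_one_of_pos hu0
    push_cast
    linarith
  have hlog0 : 0 ≤ Real.log ((K : ℝ) + 2) := Real.log_nonneg (by linarith)
  have hsq : √K ≤ u ^ 2 := by
    rw [Real.sqrt_le_left (by positivity)]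
    have : (u ^ 2) ^ 2 = u ^ 4 := by ring
    rw [this, hu4]
    linarith
  have h1 : (A * Real.log (K + 2) + B) * √K ≤ (A * (4 * u) + B) * u ^ 2 := by
    apply mul_le_mul _ hsq (Real.sqrt_nonneg _) (by positivity)
    have := mul_le_mul_of_nonneg_left hlog hA
    linarith
  refine h1.trans ?_
  -- `4 A u^3 ≤ (η/2) u^4 + 4A(8A/η)^3`
  have h2 : 4 * A * u ^ 3 ≤ η / 2 * u ^ 4 + 4 * A * (8 * A / η) ^ 3 := by
    rcases le_total u (8 * A / η) with h | h
    · have h3 : u ^ 3 ≤ (8 * A / η) ^ 3 := pow_le_pow_left₀ hu0.le h 3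
      have h4 := mul_le_mul_of_nonneg_left h3 (by positivity : (0 : ℝ) ≤ 4 * A)
      have : 0 ≤ η / 2 * u ^ 4 := by positivity
      linarith
    · have h3 : 8 * A ≤ η * u := by
        rw [div_le_iff₀ hη] at h
        linarith
      have h4 : 8 * A * u ^ 3 ≤ η * u * u ^ 3 := mul_le_mul_of_nonneg_right h3 (by positivity)
      have h5 : η * u * u ^ 3 = η * u ^ 4 := by ring
      have : 0 ≤ 4 * A * (8 * A / η) ^ 3 := by positivity
      linarith
  have h3 : B * u ^ 2 ≤ η / 2 * u ^ 4 + B ^ 2 / (2 * η) := by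
    have h4 : 0 ≤ (η * u ^ 2 - B) ^ 2 / (2 * η) := by positivity
    have h5 : (η * u ^ 2 - B) ^ 2 / (2 * η) = η / 2 * u ^ 4 - B * u ^ 2 + B ^ 2 / (2 * η) := by
      field_simp
      ring
    linarith
  have h6 : (A * (4 * u) + B) * u ^ 2 = 4 * A * u ^ 3 + B * u ^ 2 := by ring
  rw [h6]
  have h7 : η / 2 * u ^ 4 + η / 2 * u ^ 4 = η * K + 2 * η := by rw [hu4]; ring
  linarith

/-- All but `η K + C` of the first `K` scales are typical for all densities down to
`exp (-δ √(log N))`. -/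
theorem typical_sparse (ε : ℝ) (hε : 0 < ε) (hε1 : ε ≤ 1) (η : ℝ) (hη : 0 < η) :
    ∃ δ : ℝ, 0 < δ ∧ ∃ C : ℝ, ∀ K : ℕ,
      ((badScales (fun N => Typical ε (Real.exp (δ * √(Real.log N))) N) 0 K).card : ℝ) ≤
        η * K + C := by
  classical
  have hl : 0 ≤ Real.log (1 / ε) := Real.log_nonneg (by rw [le_div_iff₀ hε]; linarith)
  obtain ⟨C, hC⟩ := log_sqrt_le (A := 3 * 10 ^ 7 / ε) (B := 3 * 10 ^ 7 / ε * Real.log (1 / ε))
    (η := η / 2) (by positivity) (by positivity) (by positivity)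
  set δ : ℝ := ε * η / (6 * 10 ^ 7) with hδ
  have hδ0 : 0 < δ := by positivity
  refine ⟨δ, hδ0, C, ?_⟩
  intro K
  have hK : (0 : ℝ) ≤ K := Nat.cast_nonneg _
  set D : ℝ := Real.exp (δ * √K) with hD
  have hD1 : 1 ≤ D := Real.one_le_exp (by positivity)
  have hsub : badScales (fun N => Typical ε (Real.exp (δ * √(Real.log N))) N) 0 K ⊆
      badScales (Typical ε D) 0 K := by
    intro k hk
    unfold badScales at hk ⊢
    rw [mem_filter] at hk ⊢
    refine ⟨hk.1, fun h => hk.2 ?_⟩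
    intro N hN1 hN2
    refine (h N hN1 hN2).mono (Real.one_le_exp (by positivity)) ?_
    apply Real.exp_le_exp.2
    apply mul_le_mul_of_nonneg_left _ hδ0.le
    apply Real.sqrt_le_sqrt
    have hN0 : (1 : ℝ) ≤ N := by exact_mod_cast le_trans Nat.one_le_two_pow hN1
    have h1 : (N : ℝ) ≤ 2 ^ (k + 1) := by exact_mod_cast hN2.le
    have h2 : Real.log N ≤ Real.log ((2 : ℝ) ^ (k + 1)) := Real.log_le_log (by linarith) h1
    rw [Real.log_pow] at h2
    have hkK : k + 1 ≤ K := by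
      have := (mem_Ico.1 hk.1).2
      omega
    have h3 : ((k + 1 : ℕ) : ℝ) ≤ K := by exact_mod_cast hkK
    have := Real.log_two_lt_d9
    have h0 : (0 : ℝ) ≤ ((k + 1 : ℕ) : ℝ) := by positivity
    nlinarith
  have h1 : ((badScales (fun N => Typical ε (Real.exp (δ * √(Real.log N))) N) 0 K).card : ℝ) ≤
      (badScales (Typical ε D) 0 K).card := by exact_mod_cast card_le_card hsub
  have h2 := typical_win ε hε hε1 D hD1 0 K
  have h3 : Real.log (D * ((0 : ℕ) + K + 2) / ε) = δ * √K + (Real.log (K + 2) + Real.log (1 / ε)) := by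
    have e : D * (((0 : ℕ) : ℝ) + K + 2) / ε = D * (((K : ℝ) + 2) * (1 / ε)) := by
      push_cast
      ring
    rw [e, Real.log_mul (by positivity) (by positivity), Real.log_mul (by positivity) (by positivity),
      hD, Real.log_exp]
  rw [h3] at h2
  have h4 : 3 * 10 ^ 7 * (δ * √K + (Real.log (K + 2) + Real.log (1 / ε))) / ε * √K =
      η / 2 * (√K * √K) + (3 * 10 ^ 7 / ε * Real.log (K + 2) + 3 * 10 ^ 7 / ε * Real.log (1 / ε)) * √K := by
    rw [hδ]
    field_simp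
    ring
  rw [h4, Real.mul_self_sqrt hK] at h2
  have h5 := hC K
  linarith

end Pool.Agent.MP_0f71ae_nt.Rnd
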