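import Pool.Agent.MP_0f71ae_nt.Rnd.One

/-!
# Almost all scales satisfy `TypA`
-/

set_option autoImplicit false

namespace Pool.Agent.MP_0f71ae_nt.Rnd

open Finset Pool.Agent.MP_0f71ae_nt.Reg Pool.Agent.MP_0f71ae_nt.Cnt

/-- In every window of consecutive scales almost all scales satisfy `TypA`. -/
theorem typA_win (ε : ℝ) (hε : 0 < ε) (hε1 : ε ≤ 1) (D : ℝ) (hD : 1 ≤ D) (a K : ℕ) :
    ((badScales (TypA ε D) a K).card : ℝ) ≤
      2 * 10 ^ 7 * Real.log (D * (a + K + 2) / ε) / ε * √K := by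
  classical
  rcases Nat.eq_zero_or_pos K with rfl | hK
  · simp [badScales]
  have hKr : (1 : ℝ) ≤ K := by exact_mod_cast hK
  have hsK : (1 : ℝ) ≤ √K := by rw [Real.one_le_sqrt]; exact hKr
  have ha0 : (0 : ℝ) ≤ a := Nat.cast_nonneg _
  have hl2 : 0 < Real.log 2 := Real.log_pos (by norm_num)
  have hl2g := Real.log_two_gt_d9
  have hl2l := Real.log_two_lt_d9
  have hD0 : 0 < D := by linarith
  set T : ℕ := a + K + ⌈100 / ε⌉₊ with hT
  have hTε : 100 / ε ≤ T := by
    have := Nat.le_ceil (100 / ε)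
    rw [hT]; push_cast
    linarith
  set y : ℕ := ⌈D * T⌉₊ with hy
  set Λ : ℝ := (y : ℝ) ^ 18 with hΛ
  have hT100 : (100 : ℝ) ≤ T := by
    have : 100 ≤ 100 / ε := by rw [le_div_iff₀ hε]; linarith
    linarith
  have hDy : D * T ≤ y := Nat.le_ceil _
  have hy1 : (1 : ℝ) ≤ y := le_trans (by nlinarith) hDy
  have hy0 : (0 : ℝ) < y := by linarith
  have hΛ1 : 1 ≤ Λ := one_le_pow₀ hy1
  set Z : ℝ := D * (a + K + 2) / ε with hZ
  have hZ2 : 3 ≤ Z := by
    rw [hZ, le_div_iff₀ hε]
    nlinarith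
  have hZ1 : 1 ≤ Z := by linarith
  have hZ0 : 0 < Z := by linarith
  have hlZ : 1 ≤ Real.log Z := by
    rw [Real.le_log_iff_exp_le hZ0]
    have := Real.exp_one_lt_d9
    linarith
  have hZε : 1 / ε ≤ Z := by
    rw [hZ]
    apply div_le_div_of_nonneg_right _ hε.le
    nlinarith
  have hyZ : (y : ℝ) ≤ 102 * Z := by
    have h1 : (T : ℝ) ≤ 101 * ((a + K + 2) / ε) := by
      have h2 : (T : ℝ) ≤ a + K + (100 / ε + 1) := by
        rw [hT]; push_cast
        have := (Nat.ceil_lt_add_one (show 0 ≤ 100 / ε by positivity)).le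
        linarith
      have h3 : a + K + (100 / ε + 1) ≤ 101 * (((a : ℝ) + K + 2) / ε) := by
        have h4 : (a : ℝ) + K + 1 ≤ ((a : ℝ) + K + 2) / ε := by
          rw [le_div_iff₀ hε]
          nlinarith
        have h5 : 100 / ε ≤ 100 * (((a : ℝ) + K + 2) / ε) := by
          rw [← mul_div_assoc]
          apply div_le_div_of_nonneg_right _ hε.le
          linarith
        linarith
      linarith
    have h6 : D * (T : ℝ) ≤ 101 * Z := by
      calc D * (T : ℝ) ≤ D * (101 * ((a + K + 2) / ε)) := mul_le_mul_of_nonneg_left h1 hD0.le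
        _ = 101 * Z := by rw [hZ]; ring
    have h7 : (y : ℝ) ≤ D * T + 1 := (Nat.ceil_lt_add_one (by positivity)).le
    linarith
  have hl101 : Real.log 102 ≤ 5 := by
    have e : Real.log 102 ≤ Real.log 128 := Real.log_le_log (by norm_num) (by norm_num)
    rw [show (128 : ℝ) = 2 ^ 7 by norm_num, Real.log_pow] at e
    push_cast at e
    linarith
  have hly : Real.log y ≤ 6 * Real.log Z := by
    have h1 : Real.log y ≤ Real.log (102 * Z) := Real.log_le_log hy0 hyZ
    rw [Real.log_mul (by norm_num) hZ0.ne'] at h1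
    linarith
  have hly0 : 0 ≤ Real.log y := Real.log_nonneg hy1
  have hlogΛ : Real.log Λ = 18 * Real.log y := by rw [hΛ, Real.log_pow]; norm_num
  have hlΛη : Real.log (Λ / (ε / 60)) ≤ 120 * Real.log Z := by
    have e : Λ / (ε / 60) = Λ * (60 * (1 / ε)) := by field_simp
    rw [e, Real.log_mul (by positivity) (by positivity), Real.log_mul (by norm_num) (by positivity),
      hlogΛ]
    have h1 : Real.log (1 / ε) ≤ Real.log Z := Real.log_le_log (by positivity) hZε
    have h40 : Real.log 60 ≤ 5 := by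
      have : Real.log 60 ≤ Real.log 102 := Real.log_le_log (by norm_num) (by norm_num)
      linarith
    linarith
  have hlΛη0 : 0 ≤ Real.log (Λ / (ε / 60)) := by
    apply Real.log_nonneg
    rw [le_div_iff₀ (by positivity)]
    linarith
  set E1 := badScales (LinAt (ε / 60) Λ) a K with hE1
  set E2 := (Finset.Ico a (a + K)).filter (fun k => (2 : ℝ) ^ k < Λ * (2 / (ε / 60))) with hE2
  set E3 := (Finset.Ico a (a + K)).filter (fun k : ℕ => (k : ℝ) < 12 / ε) with hE3
  have hsub : badScales (TypA ε D) a K ⊆ E1 ∪ (E2 ∪ E3) := by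
    intro k hk
    rw [badScales, mem_filter] at hk
    rw [mem_union, mem_union, hE1, hE2, hE3, badScales, mem_filter, mem_filter, mem_filter]
    by_contra hcon
    rw [not_or, not_or] at hcon
    obtain ⟨h1, h2, h3⟩ := hcon
    rw [not_and, not_not] at h1
    rw [not_and, not_lt] at h2 h3
    apply hk.2
    intro N hN1 hN2
    have hkK := (mem_Ico.1 hk.1).2
    refine one_N hε hε1 hD k N T y (by omega) hTε hDy hN1 hN2 (h1 hk.1 N hN1 hN2) ?_ (h3 hk.1)
    have h4 : ((2 : ℝ)) ^ k ≤ N := by exact_mod_cast hN1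
    exact (h2 hk.1).trans h4
  have hE1c : (E1.card : ℝ) ≤ 12196800 * (Real.log Z / ε * √K) := by
    have h1 := scale_linear_win (ε / 60) (by positivity) (by linarith) Λ hΛ1 a K
    refine h1.trans ?_
    have h2 : 1680 * (1 + Real.log (Λ / (ε / 60))) / (ε / 60) * √K =
        100800 * ((1 + Real.log (Λ / (ε / 60))) * (1 / ε * √K)) := by field_simp; ring
    have h3 : 12196800 * (Real.log Z / ε * √K) =
        100800 * ((121 * Real.log Z) * (1 / ε * √K)) := by ring
    rw [h2, h3]
    apply mul_le_mul_of_nonneg_left _ (by norm_num)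
    apply mul_le_mul_of_nonneg_right _ (by positivity)
    linarith
  have hbig : Real.log Z ≤ Real.log Z / ε * √K := by
    have h1 : Real.log Z ≤ Real.log Z / ε := by
      rw [le_div_iff₀ hε]
      nlinarith
    have h2 : Real.log Z / ε ≤ Real.log Z / ε * √K :=
      le_mul_of_one_le_right (by positivity) hsK
    linarith
  have hE2c : (E2.card : ℝ) ≤ 300 * (Real.log Z / ε * √K) := by
    have hΛ2 : Λ * (2 / (ε / 60)) = 2 * (Λ / (ε / 60)) := by ring
    set W : ℝ := Real.log (Λ * (2 / (ε / 60))) / Real.log 2 with hW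
    have hlog : Real.log (Λ * (2 / (ε / 60))) = Real.log 2 + Real.log (Λ / (ε / 60)) := by
      rw [hΛ2, Real.log_mul (by norm_num) (by positivity)]
    have hW0 : 0 ≤ W := by rw [hW, hlog]; positivity
    have h1 : E2 ⊆ Finset.range ⌈W⌉₊ := by
      intro k hk
      rw [hE2, mem_filter] at hk
      rw [mem_range, Nat.lt_ceil, hW, lt_div_iff₀ hl2]
      have := Real.log_lt_log (by positivity) hk.2
      rw [Real.log_pow] at this
      exact this
    have h2 : (E2.card : ℝ) ≤ W + 1 := by
      have h3 := card_le_card h1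
      rw [card_range] at h3
      have h4 : (E2.card : ℝ) ≤ (⌈W⌉₊ : ℝ) := by exact_mod_cast h3
      exact h4.trans (Nat.ceil_lt_add_one hW0).le
    have h3 : W ≤ 220 * Real.log Z := by
      rw [hW, div_le_iff₀ hl2, hlog]
      nlinarith
    linarith
  have hE3c : (E3.card : ℝ) ≤ 13 * (Real.log Z / ε * √K) := by
    have h1 : E3 ⊆ Finset.range ⌈12 / ε⌉₊ := by
      intro k hk
      rw [hE3, mem_filter] at hk
      rw [mem_range, Nat.lt_ceil]
      exact hk.2
    have h2 : (E3.card : ℝ) ≤ 12 / ε + 1 := by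
      have h3 := card_le_card h1
      rw [card_range] at h3
      have h4 : (E3.card : ℝ) ≤ (⌈12 / ε⌉₊ : ℝ) := by exact_mod_cast h3
      exact h4.trans (Nat.ceil_lt_add_one (by positivity)).le
    have h3 : 1 ≤ 1 / ε := by rw [le_div_iff₀ hε]; linarith
    have h4 : 1 / ε ≤ Real.log Z / ε := div_le_div_of_nonneg_right hlZ hε.le
    have h5 : Real.log Z / ε ≤ Real.log Z / ε * √K :=
      le_mul_of_one_le_right (by positivity) hsK
    have h6 : 12 / ε = 12 * (1 / ε) := by ring
    linarith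
  have h3 := card_le_card hsub
  have h4 := (card_union_le E1 (E2 ∪ E3)).trans (Nat.add_le_add_left (card_union_le E2 E3) _)
  have h5 : ((badScales (TypA ε D) a K).card : ℝ) ≤ E1.card + (E2.card + E3.card) := by
    exact_mod_cast h3.trans h4
  have h6 : 2 * 10 ^ 7 * Real.log Z / ε * √K = 2 * 10 ^ 7 * (Real.log Z / ε * √K) := by ring
  have h7 : 0 ≤ Real.log Z / ε * √K := by positivity
  rw [h6]
  linarith

end Pool.Agent.MP_0f71ae_nt.Rnd
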